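import Pool.Agent.Helper56.RZ.GoalsE

/-!
# Project RZ4 (MP_f32c9c_an), packet GF2
-/

set_option autoImplicit false

open Set Filter Topology MeasureTheory

open scoped ContDiff

namespace Pool.Agent.Helper31.RZ

open Pool.Agent.Helper56.RZ

/-- PACKET GF2 -/
theorem gf2 (hRE : StmtRE2) (hDF : StmtDF2) (hFB : StmtFB) : StmtGF2 := by
  intro N K u M m f f' P hSV hf hPH c z0 hz0 hcm hrank D hDT h8
  have hM := hSV.compact
  have hcM : CompactSpace M := isCompact_iff_compactSpace.1 hM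
  obtain ⟨w, Ξ, r, lam, hr, hlam, hdir, hV, hdisc⟩ := hDF N K u M m f f' P hSV hf hPH c z0 hz0 hrank
  obtain ⟨CF, hCF, hF⟩ := hFB N u w Ξ
  have hcΞ : Continuous fun z : E N => Ξ.symm (z - z0) :=
    Ξ.symm.continuous.comp (continuous_id.sub continuous_const)
  have hc1 : Continuous fun z : E N => (Ξ.symm (z - z0)).1 := continuous_fst.comp hcΞ
  have hc2 : Continuous fun z : E N => (Ξ.symm (z - z0)).2 := continuous_snd.comp hcΞ
  set O : Set (E N) := {z | ‖(Ξ.symm (z - z0)).1‖ < r / 2 ∧ ‖(Ξ.symm (z - z0)).2‖ < r / 2} with hO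
  have hOo : IsOpen O :=
    (isOpen_lt hc1.norm continuous_const).inter (isOpen_lt hc2.norm continuous_const)
  have hbox : ∀ z : E N, ‖(Ξ.symm (z - z0)).1‖ < r → ‖(Ξ.symm (z - z0)).2‖ < r → z ∈ c.V := by
    intro z h1 h2
    have h3 := hV (Ξ.symm (z - z0)).1 (Ξ.symm (z - z0)).2 h1 h2
    rw [Prod.mk.eta, ContinuousLinearEquiv.apply_symm_apply, add_sub_cancel] at h3
    exact h3
  have hWo : IsOpen (c.W ∩ c.φ ⁻¹' O) := c.smoothφ.continuousOn.isOpen_inter_preimage c.openW hOo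
  refine ⟨c.W ∩ c.φ ⁻¹' O, hWo, ⟨(c.mapsψ z0 hz0).2, ?_⟩, ?_⟩
  · have h0 : Ξ.symm (c.φ (c.ψ z0) - z0) = 0 := by rw [c.left z0 hz0, sub_self, map_zero]
    change ‖(Ξ.symm (c.φ (c.ψ z0) - z0)).1‖ < r / 2 ∧ ‖(Ξ.symm (c.φ (c.ψ z0) - z0)).2‖ < r / 2
    rw [h0]
    constructor
    · simpa using by linarith
    · simpa using by linarith
  intro ε δ1 hε hδ1
  obtain ⟨Ce, hCe, hE⟩ := hRE K u M hM D _ _ h8 r lam ε δ1 hr hlam hε hδ1
  refine ⟨Ce, hCe, ?_⟩
  intro q ρ A hρ hAc hAO hA
  classical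
  -- the parametrisation with values in `M`
  have hz0M : c.ψ z0 ∈ M := (c.mapsψ z0 hz0).1
  let ψ' : E N → M := fun z => if h : z ∈ c.V then ⟨c.ψ z, (c.mapsψ z h).1⟩ else ⟨c.ψ z0, hz0M⟩
  have hψ' : ∀ z ∈ c.V, (ψ' z : E K) = c.ψ z := fun z hz => by
    simp only [ψ', dif_pos hz]
  have hψ'c : ContinuousOn ψ' c.V := by
    rw [Topology.IsInducing.subtypeVal.continuousOn_iff]
    exact c.smoothψ.continuousOn.congr fun z hz => hψ' z hz
  have hφψ : ∀ z ∈ c.V, c.φ (ψ' z : E K) = z := fun z hz => by rw [hψ' z hz, c.left z hz]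
  have hψφ : ∀ x : M, (x : E K) ∈ c.W → ψ' (c.φ x) = x := fun x hx => by
    apply Subtype.ext
    rw [hψ' _ (c.mapsφ x ⟨x.2, hx⟩), c.right x ⟨x.2, hx⟩]
  -- the box
  set Bx : Set (E N) := {z | ‖(Ξ.symm (z - z0)).1‖ ≤ 3 * r / 4 ∧ ‖(Ξ.symm (z - z0)).2‖ ≤ r / 2}
    with hBx
  have hBxV : Bx ⊆ c.V := fun z hz => hbox z (by have := hz.1; linarith) (by have := hz.2; linarith)
  have hBxc : IsCompact Bx := by
    have h1 : Bx = (fun x : E u × E w => z0 + Ξ x) ''
        (Metric.closedBall (0 : E u) (3 * r / 4) ×ˢ Metric.closedBall (0 : E w) (r / 2)) := by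
      ext z
      constructor
      · rintro ⟨h2, h3⟩
        refine ⟨Ξ.symm (z - z0), ⟨mem_closedBall_zero_iff.2 h2, mem_closedBall_zero_iff.2 h3⟩, ?_⟩
        simp only [ContinuousLinearEquiv.apply_symm_apply, add_sub_cancel]
      · rintro ⟨x, ⟨h2, h3⟩, rfl⟩
        refine ⟨?_, ?_⟩
        · simp only [add_sub_cancel_left, ContinuousLinearEquiv.symm_apply_apply]
          exact mem_closedBall_zero_iff.1 h2
        · simp only [add_sub_cancel_left, ContinuousLinearEquiv.symm_apply_apply]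
          exact mem_closedBall_zero_iff.1 h3
    rw [h1]
    exact ((isCompact_closedBall _ _).prod (isCompact_closedBall _ _)).image
      (continuous_const.add Ξ.continuous)
  have hAW : ∀ x ∈ A, (x : E K) ∈ c.W := fun x hx => (hAO x hx).1
  have hφA : ContinuousOn (fun x : M => c.φ x) A :=
    c.smoothφ.continuousOn.comp continuous_subtype_val.continuousOn fun x hx => hAW x hx
  have hit : ∀ j : ℕ, Continuous fun x : M => (D.f^[j] x : E K) := fun j =>
    continuous_subtype_val.comp (D.f.continuous.iterate j)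
  -- the pairs
  set T : Set (E N × M) := {x | x ∈ Bx ×ˢ A ∧
    (Ξ.symm (c.φ x.2 - z0)).2 - (Ξ.symm (x.1 - z0)).2 = 0 ∧
    ∀ j ≤ q, ‖(D.f^[j] (ψ' x.1) : E K) - D.f^[j] x.2‖ ≤ δ1} with hT
  have hBA : IsCompact (Bx ×ˢ A) := hBxc.prod hAc
  have hTc : IsCompact T := by
    refine hBA.of_isClosed_subset ?_ fun x hx => hx.1
    have h1 : IsClosed ((Bx ×ˢ A) ∩ (fun x : E N × M =>
        (Ξ.symm (c.φ x.2 - z0)).2 - (Ξ.symm (x.1 - z0)).2) ⁻¹' {0}) := by
      refine ContinuousOn.preimage_isClosed_of_isClosed ?_ hBA.isClosed isClosed_singleton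
      refine ContinuousOn.sub ?_ ?_
      · exact hc2.comp_continuousOn (hφA.comp continuous_snd.continuousOn fun x hx => hx.2)
      · exact (hc2.comp continuous_fst).continuousOn
    have h2 : ∀ j : ℕ, IsClosed ((Bx ×ˢ A) ∩ (fun x : E N × M =>
        ‖(D.f^[j] (ψ' x.1) : E K) - D.f^[j] x.2‖) ⁻¹' Iic δ1) := by
      intro j
      refine ContinuousOn.preimage_isClosed_of_isClosed ?_ hBA.isClosed isClosed_Iic
      refine (ContinuousOn.sub ?_ ?_).norm
      · exact (hit j).comp_continuousOn (hψ'c.comp continuous_fst.continuousOn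
          fun x hx => hBxV hx.1)
      · exact ((hit j).comp continuous_snd).continuousOn
    have h3 : T = ((Bx ×ˢ A) ∩ (fun x : E N × M =>
        (Ξ.symm (c.φ x.2 - z0)).2 - (Ξ.symm (x.1 - z0)).2) ⁻¹' {0}) ∩
        ⋂ j ∈ Iic q, ((Bx ×ˢ A) ∩ (fun x : E N × M =>
        ‖(D.f^[j] (ψ' x.1) : E K) - D.f^[j] x.2‖) ⁻¹' Iic δ1) := by
      ext x
      simp only [hT, mem_ofPred_eq, mem_inter_iff, mem_iInter, mem_preimage, mem_singleton_iff,
        mem_Iic]
      constructor
      · rintro ⟨h4, h5, h6⟩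
        exact ⟨⟨h4, h5⟩, fun j hj => ⟨h4, h6 j hj⟩⟩
      · rintro ⟨⟨h4, h5⟩, h6⟩
        exact ⟨h4, h5, fun j hj => (h6 j hj).2⟩
    rw [h3]
    exact h1.inter (isClosed_biInter fun j _ => h2 j)
  set S : Set M := (fun x : E N × M => ψ' x.1) '' T with hS
  have hSc : IsCompact S := by
    refine hTc.image_of_continuousOn ?_
    exact hψ'c.comp continuous_fst.continuousOn fun x hx => hBxV hx.1.1
  have hSW : ∀ y ∈ S, (y : E K) ∈ c.W ∧ c.φ y ∈ c.V := by
    rintro y ⟨x, hx, rfl⟩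
    have h1 := hBxV hx.1.1
    have h2 := (c.mapsψ _ h1).2
    constructor
    · change (ψ' x.1 : E K) ∈ c.W
      rw [hψ' _ h1]; exact h2
    · change c.φ (ψ' x.1 : E K) ∈ c.V
      rw [hφψ _ h1]; exact h1
  refine ⟨S, hSc, ?_, ?_⟩
  · rintro y ⟨⟨z, x⟩, ⟨⟨hz, hx⟩, h2, h3⟩, rfl⟩
    have hzV : z ∈ c.V := hBxV hz
    refine ⟨x, hx, hAW x hx, ?_, ?_, h3⟩
    · change (ψ' z : E K) ∈ c.W
      rw [hψ' z hzV]
      exact (c.mapsψ z hzV).2
    · have h4 : c.φ (ψ' z : E K) - c.φ (x : E K)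
          = Ξ ((Ξ.symm (z - z0)).1 - (Ξ.symm (c.φ x - z0)).1, 0) := by
        have h5 : ((Ξ.symm (z - z0)).1 - (Ξ.symm (c.φ x - z0)).1, (0 : E w))
            = Ξ.symm (z - z0) - Ξ.symm (c.φ x - z0) := by
          refine Prod.ext rfl ?_
          change (0 : E w) = (Ξ.symm (z - z0)).2 - (Ξ.symm (c.φ x - z0)).2
          rw [← neg_sub, h2, neg_zero]
        rw [h5, hφψ z hzV, ← map_sub, ContinuousLinearEquiv.apply_symm_apply]
        abel
      change phat c P 2 z0 (c.φ (ψ' z : E K) - c.φ (x : E K)) = c.φ (ψ' z : E K) - c.φ (x : E K)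
      rw [h4]
      exact hdir _
  · -- the measures
    set ZA : Set (E N) := (fun x : M => c.φ x) '' A with hZA
    set ZS : Set (E N) := (fun x : M => c.φ x) '' S with hZS
    have hZAc : IsCompact ZA := hAc.image_of_continuousOn hφA
    have hZSc : IsCompact ZS := hSc.image_of_continuousOn
      (c.smoothφ.continuousOn.comp continuous_subtype_val.continuousOn fun x hx => (hSW x hx).1)
    have hZAO : ZA ⊆ O := by
      rintro z ⟨x, hx, rfl⟩
      exact (hAO x hx).2
    have hZAV : ZA ⊆ c.V := by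
      rintro z ⟨x, hx, rfl⟩
      exact c.mapsφ x ⟨x.2, hAW x hx⟩
    have hZSV : ZS ⊆ c.V := by
      rintro z ⟨x, hx, rfl⟩
      exact (hSW x hx).2
    have hmA : m (((↑) : M → E K) '' A) = volume ZA := by
      rw [← hcm ZA hZAc.isClosed.measurableSet hZAV]
      congr 1
      rw [hZA, image_image]
      exact image_congr fun x hx => (c.right x ⟨x.2, hAW x hx⟩).symm
    have hmS : m (((↑) : M → E K) '' S) = volume ZS := by
      rw [← hcm ZS hZSc.isClosed.measurableSet hZSV]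
      congr 1
      rw [hZS, image_image c.ψ (fun x : M => c.φ x) S]
      exact image_congr fun x hx => (c.right x ⟨x.2, (hSW x hx).1⟩).symm
    rw [hmA, hmS, hF z0 ZA hZAc.isClosed.measurableSet, hF z0 ZS hZSc.isClosed.measurableSet]
    set K0 := ENNReal.ofReal (Ce * Real.exp (ε * q) * ρ ^ u) with hK0
    have key : ∀ b : E w, volume {a : E u | z0 + Ξ (a, b) ∈ ZA} ≤
        K0 * volume {a : E u | z0 + Ξ (a, b) ∈ ZS} := by
      intro b
      have hinA : ∀ a : E u, z0 + Ξ (a, b) ∈ ZA → ‖a‖ < r / 2 ∧ ‖b‖ < r / 2 := by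
        intro a ha
        have h1 := hZAO ha
        rw [hO, mem_ofPred_eq, add_sub_cancel_left, ContinuousLinearEquiv.symm_apply_apply] at h1
        exact h1
      by_cases hb : ‖b‖ < r / 2
      · obtain ⟨g, g', hg, hgd⟩ := hdisc b (by linarith)
        have hDT' : D.T = fun x : M => Pi M x := funext hDT
        rw [← hDT'] at hgd
        have hVb : ∀ a : E u, ‖a‖ < r → z0 + Ξ (a, b) ∈ c.V := fun a ha => hV a b ha (by linarith)
        have hgψ : ∀ a : E u, ‖a‖ < r → g a = ψ' (z0 + Ξ (a, b)) := fun a ha => by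
          apply Subtype.ext
          rw [hg a ha, hψ' _ (hVb a ha)]
        have hgA : ∀ a : E u, z0 + Ξ (a, b) ∈ ZA → g a ∈ A ∧ c.φ (g a) = z0 + Ξ (a, b) := by
          intro a ha
          have h1 := (hinA a ha).1
          obtain ⟨x, hx, hxe⟩ := ha
          have h2 : g a = x := by
            rw [hgψ a (by linarith), ← hxe]
            exact hψφ x (hAW x hx)
          rw [h2]
          exact ⟨hx, hxe⟩
        have hcont : Continuous fun a : E u => z0 + Ξ (a, b) :=
          continuous_const.add (Ξ.continuous.comp (continuous_id.prodMk continuous_const))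
        have hmeas : MeasurableSet {a : E u | z0 + Ξ (a, b) ∈ ZA} :=
          (hZAc.isClosed.preimage hcont).measurableSet
        have h1 := hE g g' hgd q ρ {a : E u | z0 + Ξ (a, b) ∈ ZA} hρ hmeas
          (fun a ha => (hinA a ha).1.le) (fun a ha a' ha' hB => ?_)
        · refine h1.trans (mul_le_mul_right (measure_mono ?_) _)
          rintro a ⟨ha, a0, ha0, hB⟩
          have har : ‖a‖ < r := by linarith
          have hzB : z0 + Ξ (a, b) ∈ Bx := by
            rw [hBx, mem_ofPred_eq, add_sub_cancel_left, ContinuousLinearEquiv.symm_apply_apply]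
            exact ⟨ha, hb.le⟩
          have hgS : g a ∈ S := by
            refine ⟨(z0 + Ξ (a, b), g a0), ⟨⟨hzB, (hgA a0 ha0).1⟩, ?_, ?_⟩, (hgψ a har).symm⟩
            · change (Ξ.symm (c.φ (g a0 : E K) - z0)).2 - (Ξ.symm (z0 + Ξ (a, b) - z0)).2 = 0
              rw [(hgA a0 ha0).2, add_sub_cancel_left, add_sub_cancel_left,
                ContinuousLinearEquiv.symm_apply_apply, ContinuousLinearEquiv.symm_apply_apply]
              exact sub_self b
            · intro j hj
              change ‖(D.f^[j] (ψ' (z0 + Ξ (a, b))) : E K) - D.f^[j] (g a0)‖ ≤ δ1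
              rw [← hgψ a har]
              exact hB j hj
          refine ⟨g a, hgS, ?_⟩
          change c.φ (g a : E K) = z0 + Ξ (a, b)
          rw [hgψ a har, hφψ _ (hVb a har)]
        · have har : ‖a‖ < r := by have := (hinA a ha).1; linarith
          have har' : ‖a'‖ < r := by have := (hinA a' ha').1; linarith
          exact hA (g a) (hgA a ha).1 (g a') (hgA a' ha').1 (hgd.cone a a' har har') hB
      · have h2 : {a : E u | z0 + Ξ (a, b) ∈ ZA} = ∅ := by
          ext a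
          simp only [mem_ofPred_eq, mem_empty_iff_false, iff_false]
          exact fun h => hb (hinA a h).2
        rw [h2, measure_empty]
        exact zero_le
    calc ENNReal.ofReal CF * ∫⁻ b : E w, volume {a : E u | z0 + Ξ (a, b) ∈ ZA}
        ≤ ENNReal.ofReal CF * ∫⁻ b : E w, K0 * volume {a : E u | z0 + Ξ (a, b) ∈ ZS} :=
          mul_le_mul_right (lintegral_mono key) _
      _ = ENNReal.ofReal CF * (K0 * ∫⁻ b : E w, volume {a : E u | z0 + Ξ (a, b) ∈ ZS}) := by
          rw [lintegral_const_mul' _ _ (by rw [hK0]; exact ENNReal.ofReal_ne_top)]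
      _ = K0 * (ENNReal.ofReal CF * ∫⁻ b : E w, volume {a : E u | z0 + Ξ (a, b) ∈ ZS}) := by
          rw [← mul_assoc, ← mul_assoc, mul_comm (ENNReal.ofReal CF) K0]

end Pool.Agent.Helper31.RZ
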